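import Pool.Agent.K7.H31.LO.Stage

set_option autoImplicit false

/-!
# The periodic chain of stages of the pretzel knots P(2p+1, -3, -(2k+1))

Every point is fixed by all `x j` and `w j`.
-/

namespace Pool.Agent.K7.H31.LO

open Pool.Agent.TH821.Hex

variable {Ω : Type*} [CompleteLinearOrder Ω] {n : ℕ}

/-- The chain. -/
def TChain (x r f F w u z : ZMod n → Ω ≃o Ω) : Prop :=
  ∀ j, TStage (x j) (r j) (f j) (F j) (w j) (u j) (z j) (z (j + 1)) (u (j - 1))

theorem TChain.dual {x r f F w u z : ZMod n → Ω ≃o Ω} (h : TChain x r f F w u z) :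
    TChain (Ω := Ωᵒᵈ) (fun j => (x j).dual) (fun j => (r j).dual) (fun j => (f j).dual)
      (fun j => (F j).dual) (fun j => (w j).dual) (fun j => (u j).dual) (fun j => (z j).dual) :=
  fun j => (h j).dual

theorem back [NeZero n] {P : ZMod n → Prop} (h : ∀ j, P (j + 1) → P j) {i : ZMod n} (hi : P i)
    (j : ZMod n) : P j := by
  have key : ∀ k : ℕ, P (i - k) := by
    intro k
    induction k with
    | zero => simpa using hi
    | succ k ih =>
      apply h
      have e : i - ((k + 1 : ℕ) : ZMod n) + 1 = i - k := by push_cast; ring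
      rw [e]; exact ih
  have h1 := key (i - j).val
  rw [ZMod.natCast_zmod_val] at h1
  simpa using h1

theorem forw [NeZero n] {P : ZMod n → Prop} (h : ∀ j, P j → P (j + 1)) {i : ZMod n} (hi : P i)
    (j : ZMod n) : P j := by
  have key : ∀ k : ℕ, P (i + k) := by
    intro k
    induction k with
    | zero => simpa using hi
    | succ k ih =>
      have e : i + ((k + 1 : ℕ) : ZMod n) = i + k + 1 := by push_cast; ring
      rw [e]; exact h _ ih
  have h1 := key (j - i).val
  rw [ZMod.natCast_zmod_val] at h1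
  simpa using h1

theorem no_decr [NeZero n] (g : ZMod n → Ω) (h : ∀ j, g j < g (j - 1)) : False := by
  obtain ⟨i, hi⟩ := Finite.exists_max g
  exact absurd (h i) (not_lt.mpr (hi (i - 1)))

variable [NeZero n] {x r f F w u z : ZMod n → Ω ≃o Ω}

theorem TChain.no_neg (h : TChain x r f F w u z) {i : ZMod n} {t : Ω}
    (hi : INeg (u (i - 1)) (z i t) t) : False := by
  have step : ∀ j, INeg (u (j + 1 - 1)) (z (j + 1) t) t →
      w j t < t ∧ INeg (u (j - 1)) (z j t) t := by
    intro j hj
    rw [add_sub_cancel_right] at hj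
    exact (h j).neg hj
  have key : ∀ j, INeg (u (j - 1)) (z j t) t :=
    back (P := fun j => INeg (u (j - 1)) (z j t) t) (fun j hj => (step j hj).2) hi
  refine no_decr (fun j => (u j).symm t) ?_
  intro j
  show (u j).symm t < (u (j - 1)).symm t
  rw [lt_symm_iff, (h j).e, OrderIso.apply_symm_apply]
  exact (step j (key (j + 1))).1

theorem TChain.no_pos (h : TChain x r f F w u z) {i : ZMod n} {t : Ω}
    (hi : IPos (u (i - 1)) (z i t) t) : False :=
  TChain.no_neg (Ω := Ωᵒᵈ) h.dual (i := i) (t := t) hi.dual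

theorem TChain.A1 (h : TChain x r f F w u z) (j : ZMod n) {t : Ω} (hz : z j t ≤ t) :
    u j (z j t) ≤ t := by
  by_contra hc
  rw [not_le] at hc
  exact h.no_pos ((h j).lemA hz hc)

theorem TChain.A2 (h : TChain x r f F w u z) (j : ZMod n) {t : Ω} (hz : t ≤ z j t) :
    t ≤ u j (z j t) := TChain.A1 (Ω := Ωᵒᵈ) h.dual j (t := t) hz

theorem TChain.B1 (h : TChain x r f F w u z) (j : ZMod n) {t : Ω} (hz : z j t ≤ t) :
    z (j + 1) t ≤ t := by
  by_contra hc
  rw [not_le] at hc
  exact h.no_neg ((h j).lemB hz hc (h.A1 j hz))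

theorem TChain.B2 (h : TChain x r f F w u z) (j : ZMod n) {t : Ω} (hz : t ≤ z j t) :
    t ≤ z (j + 1) t := TChain.B1 (Ω := Ωᵒᵈ) h.dual j (t := t) hz

/-- All `z j t > t` is impossible. -/
theorem TChain.no_up (h : TChain x r f F w u z) {t : Ω} (hz : ∀ j, t < z j t) : False := by
  have hy : ∀ j, t < u j (z j t) := by
    intro j
    rcases (h.A2 j (hz j).le).eq_or_lt with h1 | h1
    · exact (h.no_neg ((h j).lemC (hz j) (hz (j + 1)) h1.symm)).elim
    · exact h1
  obtain ⟨i, hi⟩ := Finite.exists_min (fun j => z j t)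
  have h0 : ∀ v, z i t ≤ v → v ≤ z (i - 1) t → v < u (i - 1 - 1) v := by
    have e : i - 1 + 1 = i := by ring
    have h1 := h (i - 1)
    rw [e] at h1
    exact (h1.lemD (hz i) (hi (i - 1)) le_rfl (hy (i - 1)) (Or.inl (hi (i - 1)))
      (Or.inr (Or.inl rfl))).2.2
  have step : ∀ j, (∀ v, z i t ≤ v → v ≤ z (j + 1) t → v < u (j + 1 - 1) v) →
      (∀ v, z i t ≤ v → v ≤ z j t → v < u j v) ∧ (∀ v, t ≤ v → v ≤ u j (z j t) → v < w j v) ∧
      ∀ v, z i t ≤ v → v ≤ z j t → v < u (j - 1) v := by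
    intro j hj
    rw [add_sub_cancel_right] at hj
    exact (h j).lemD (hz i) (hi j) (hi (j + 1)) (hy j) (Or.inr hj) (Or.inr (Or.inr hj))
  have key : ∀ j, ∀ v, z i t ≤ v → v ≤ z j t → v < u (j - 1) v :=
    back (P := fun j => ∀ v, z i t ≤ v → v ≤ z j t → v < u (j - 1) v)
      (fun j hj => (step j hj).2.2) h0
  refine no_decr (fun j => u j (z i t)) ?_
  intro j
  show u j (z i t) < u (j - 1) (z i t)
  obtain ⟨p1, p2, -⟩ := step j (key (j + 1))
  rw [(h j).e]
  exact p2 _ ((hz i).trans (p1 _ le_rfl (hi j))).le ((u j).le_iff_le.mpr (hi j))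

theorem TChain.no_down (h : TChain x r f F w u z) {t : Ω} (hz : ∀ j, z j t < t) : False :=
  TChain.no_up (Ω := Ωᵒᵈ) h.dual (t := t) hz

theorem TChain.z_fix (h : TChain x r f F w u z) (j : ZMod n) (t : Ω) : z j t = t := by
  by_contra hc
  rcases lt_or_gt_of_ne hc with h1 | h1
  · have h2 : ∀ i, z i t ≤ t := forw (P := fun i => z i t ≤ t) (fun i hi => h.B1 i hi) h1.le
    apply h.no_down (t := t)
    intro i
    refine lt_of_le_of_ne (h2 i) ?_
    intro h3
    have h4 : ∀ i, t ≤ z i t := forw (P := fun i => t ≤ z i t) (fun i hi => h.B2 i hi) h3.ge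
    exact absurd h1 (not_lt.mpr (h4 j))
  · have h2 : ∀ i, t ≤ z i t := forw (P := fun i => t ≤ z i t) (fun i hi => h.B2 i hi) h1.le
    apply h.no_up (t := t)
    intro i
    refine lt_of_le_of_ne (h2 i) ?_
    intro h3
    have h4 : ∀ i, z i t ≤ t := forw (P := fun i => z i t ≤ t) (fun i hi => h.B1 i hi) h3.ge
    exact absurd h1 (not_lt.mpr (h4 j))

/-- Everything acts trivially. -/
theorem TChain.fixed (h : TChain x r f F w u z) (j : ZMod n) (t : Ω) : x j t = t ∧ w j t = t := by
  have hu : ∀ i, u i t = t := by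
    intro i
    have h1 := h.A1 i (h.z_fix i t).le
    have h2 := h.A2 i (h.z_fix i t).ge
    rw [h.z_fix i t] at h1 h2
    exact le_antisymm h1 h2
  have hw : w j t = t := by
    have := (h j).e t
    rw [hu, hu] at this
    exact this.symm
  refine ⟨?_, hw⟩
  have := (h j).d t
  rw [h.z_fix, hw, h.z_fix] at this
  exact this.symm

end Pool.Agent.K7.H31.LO
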