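import Pool.Agent.K7.H31.LO.Chain

set_option autoImplicit false

/-!
# Left-ordered groups and the relations of the pretzel knots P(2p+1, -3, -(2k+1))
-/

namespace Pool.Agent.K7.H31.LO

open Pool.Agent.W705.Borr Pool.Agent.TH821.Chain Pool.Agent.TH821.Hex Pool.Agent.TH821.Cyc

/-- The relations between the generators `x i, w i` and the elements `r i, s i`. -/
structure TRel {H : Type*} [Group H] {n : ℕ} (x w r s : ZMod n → H)
    (a b a' b' : ZMod n → ℕ) : Prop where
  fr : ∀ i, Fol (x i) (r i) (a i) (b i)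
  fs : ∀ i, Fol (w i) (s i) (a' i) (b' i)
  relZ : ∀ i, x (i + 1) * r (i + 1) * s (i + 1) = x i * (x i * r i * s i) * w i
  relU : ∀ i, w (i + 1) * x (i + 1) * w (i + 1) * (x (i + 1))⁻¹ * (r (i + 1))⁻¹
    = x i * w i * (x i)⁻¹ * (r i)⁻¹

theorem fol_conj {H : Type*} [Group H] {x f : H} {a b : ℕ} (h : Fol x f a b) (g : H) :
    Fol (g * x * g⁻¹) (g * f * g⁻¹) a b := by
  refine ⟨?_, h.pos, ?_⟩
  · calc g * x * g⁻¹ * (g * f * g⁻¹) = g * (x * f) * g⁻¹ := by group
      _ = g * (f * x) * g⁻¹ := by rw [h.comm]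
      _ = _ := by group
  · rw [conj_pow, conj_pow, h.pow]

section act
variable {H : Type*} [Group H] [LinearOrder H] (hinv : ∀ a b c : H, a ≤ b ↔ c * a ≤ c * b)

include hinv in
/-- In a left-ordered group the relations force triviality. -/
theorem rel_trivial {n : ℕ} (hn : 0 < n) {x w r s : ZMod n → H}
    {a b a' b' : ZMod n → ℕ} (R : TRel x w r s a b a' b') (i : ZMod n) :
    x i = 1 ∧ w i = 1 := by
  have : NeZero n := ⟨hn.ne'⟩
  have hC : TChain (fun j => act hinv (x j)) (fun j => act hinv (r j))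
      (fun j => act hinv (x j * r j * s j * w j * (x j * r j * s j)⁻¹))
      (fun j => act hinv (x j * r j * s j * s j * (x j * r j * s j)⁻¹))
      (fun j => act hinv (w j)) (fun j => act hinv (x j * w j * (x j)⁻¹ * (r j)⁻¹))
      (fun j => act hinv (x j * r j * s j)) := by
    intro j
    have hxr := (R.fr j).comm
    have hws := (R.fs j).comm
    refine ⟨follows_of_fol hinv (R.fr j), follows_of_fol hinv (fol_conj (R.fs j) _),
      ?_, ?_, ?_, ?_, ?_⟩
    · intro v
      show act hinv _ (act hinv _ v) = act hinv _ (act hinv _ v)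
      rw [← act_mul, ← act_mul]
      refine congrArg (fun g => act hinv g v) ?_
      group
    · intro v
      show act hinv _ (act hinv _ v) = act hinv _ v
      rw [← act_mul]
      refine congrArg (fun g => act hinv g v) ?_
      calc r j * (x j * w j * (x j)⁻¹ * (r j)⁻¹) = (r j * x j) * w j * (r j * x j)⁻¹ := by group
        _ = (x j * r j) * (w j * s j * (s j)⁻¹) * (x j * r j)⁻¹ := by rw [← hxr]; group
        _ = _ := by rw [hws]; group
    · intro v
      show act hinv _ (act hinv (x (j + 1) * r (j + 1) * s (j + 1)) v)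
        = act hinv _ (act hinv _ (act hinv _ v))
      rw [R.relZ, ← act_mul, ← act_mul, ← act_mul]
      refine congrArg (fun g => act hinv g v) ?_
      have h1 : (r j)⁻¹ * (x j * r j) = x j := by rw [hxr]; group
      calc x j * r j * s j * s j * (x j * r j * s j)⁻¹ * (x j * (x j * r j * s j) * w j)
          = x j * r j * s j * ((r j)⁻¹ * (x j * r j)) * (s j * w j) := by group
        _ = x j * r j * s j * x j * (w j * s j) := by rw [h1, hws]
        _ = x j * r j * s j * x j * w j * (x j)⁻¹ * ((r j)⁻¹ * (x j * r j)) * s j := by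
            rw [h1]; group
        _ = _ := by group
    · intro v
      show act hinv (x (j + 1) * r (j + 1) * s (j + 1)) v
        = act hinv _ (act hinv _ (act hinv _ v))
      rw [R.relZ, ← act_mul, ← act_mul, ← mul_assoc]
    · intro v
      show act hinv (x (j - 1) * w (j - 1) * (x (j - 1))⁻¹ * (r (j - 1))⁻¹) v
        = act hinv _ (act hinv _ v)
      rw [← R.relU, sub_add_cancel, ← act_mul]
      refine congrArg (fun g => act hinv g v) ?_
      group
  exact ⟨eq_one_of_act hinv _ fun v => (hC.fixed i v).1,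
    eq_one_of_act hinv _ fun v => (hC.fixed i v).2⟩

end act

section kernel
variable {G : Type*} [Group G] {n : ℕ}

/-- Homomorphisms from the kernel of `d` to a left-ordered group are trivial. -/
theorem hom_trivial (hn : 0 < n) {s X W : G} (hs : s ^ n = 1)
    (hgen : ∀ K : Subgroup G, s ∈ K → X ∈ K → W ∈ K → K = ⊤)
    (d : G →* Multiplicative (ZMod n)) (ds : d s = Multiplicative.ofAdd 1) (dX : d X = 1)
    (dW : d W = 1) (p k : ℕ)
    (Z : s * (X * X ^ p * W ^ k) * s⁻¹ = X * (X * X ^ p * W ^ k) * W)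
    (U : s * (W * X * W * X⁻¹ * (X ^ p)⁻¹) * s⁻¹ = X * W * X⁻¹ * (X ^ p)⁻¹)
    {H : Type*} [Group H] [LinearOrder H] (hinv : ∀ a b c : H, a ≤ b ↔ c * a ≤ c * b)
    (φ : d.ker →* H) (g : d.ker) : φ g = 1 := by
  set X' : d.ker := ⟨X, dX⟩ with hX'
  set W' : d.ker := ⟨W, dW⟩ with hW'
  have key : ∀ (i : ZMod n) (x y : d.ker), s * x.1 * s⁻¹ = y.1 →
      φ (ck d s (i + 1) x) = φ (ck d s i y) := by
    intro i x y hxy
    congr 1
    apply Subtype.ext
    show cj s x.1 (i + 1) = cj s y.1 i
    rw [cj_shift hn hs, hxy]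
  have R : TRel (fun i => φ (ck d s i X')) (fun i => φ (ck d s i W'))
      (fun i => φ (ck d s i X') ^ p) (fun i => φ (ck d s i W') ^ k)
      (fun _ => p) (fun _ => 1) (fun _ => k) (fun _ => 1) := by
    refine ⟨fun i => Fol.of_pow _ p, fun i => Fol.of_pow _ k, ?_, ?_⟩
    · intro i
      have := key i (X' * X' ^ p * W' ^ k) (X' * (X' * X' ^ p * W' ^ k) * W') Z
      simpa only [map_mul, map_inv, map_pow] using this
    · intro i
      have := key i (W' * X' * W' * X'⁻¹ * (X' ^ p)⁻¹) (X' * W' * X'⁻¹ * (X' ^ p)⁻¹) U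
      simpa only [map_mul, map_inv, map_pow] using this
  have triv := fun i => rel_trivial hinv hn R i
  have h1 : N n s X W ≤ φ.ker.map d.ker.subtype := by
    unfold N
    rw [Subgroup.closure_le]
    rintro _ (⟨i, rfl⟩ | ⟨i, rfl⟩)
    · exact ⟨ck d s i X', (triv i).1, rfl⟩
    · exact ⟨ck d s i W', (triv i).2, rfl⟩
  obtain ⟨g', hg', hgg⟩ := h1 (ker_le hn hs hgen d ds dX dW g.2)
  have : g' = g := Subtype.ext hgg
  rw [← this]; exact hg'

end kernel

end Pool.Agent.K7.H31.LO
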