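import Pool.Agent.K7.H31.LO.Group

set_option autoImplicit false

/-!
# All cyclic branched covers of the pretzel knots P(2p+1, -3, -(2k+1))

For all `p ≥ 1`, `k ≥ 0` and `n ≥ 1`, every homomorphism from the fundamental group of the
`n`-fold cyclic branched cover of the pretzel knot `P(2p+1, -3, -(2k+1))` to a left-orderable
group is trivial.  In particular this fundamental group is not left-orderable.

Idea.  With suitable generators `x i`, `w i` (`i` modulo `n`) put `z i = x i ^ p * w i ^ k` and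
`u i = x i * w i * x i ^ (-p)`; the relations are `z (i+1) = x i * z i * w i` and
`u i = w (i+1) * u (i+1)`.  Let the group act by order automorphisms on a complete linear order.
If `u i` moves all points between `t` and `z (i+1) t` down, and `z (i+1) t` even below `t`, then
`w i t < t` and the same is true for `i - 1`; so `w i t < t` for all `i`, and `(u i)⁻¹ t` decreases
with `i`, which contradicts periodicity.  It follows that `u i z i t` is on the same side of `t` as
`z i t` and that `z (i+1) t` is on the same side of `t` as `z i t`.  If all `z i t > t`, let `m` be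
the least of the points `z i t`; then `u i m` decreases with `i`.  So all `z i` are trivial, and
then all `x i` and `w i` are.
-/

namespace Pool.Agent.Results.MP_3d425c_gt.PretzelFamilyAllCovers

/-- A nontrivial group is left-orderable if it carries a strict total order that is invariant
under left multiplication. -/
def LeftOrderable (G : Type*) [Group G] : Prop :=
  Nontrivial G ∧ ∃ lt : G → G → Prop, IsStrictTotalOrder G lt ∧
    ∀ a b c : G, lt a b ↔ lt (c * a) (c * b)

/-- One crossing of a vertical twist region: if the two strands, both oriented downwards, have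
meridians `(x, y)` (left, right) above the crossing, then they have meridians `(y, y⁻¹ x y)`
below it.  The inverse is the crossing of the other handedness. -/
def crossing (G : Type*) [Group G] : Equiv.Perm (G × G) where
  toFun w := (w.2, w.2⁻¹ * w.1 * w.2)
  invFun w := (w.1 * w.2 * w.1⁻¹, w.1)
  left_inv w := by ext <;> simp [mul_assoc]
  right_inv w := by ext <;> simp [mul_assoc]

/-- The meridian `a j` of the arc at the top of the diagram that joins the top right end of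
column `j - 1` to the top left end of column `j`, oriented into column `j`. -/
def arc (j : Fin 3) : FreeGroup (Fin 3) := FreeGroup.of j

/-- The downward meridians of the two strands at the bottom of column `j`, which has `m j`
crossings; at the top they are `a j` and `(a (j+1))⁻¹`. -/
def bottom (m : Fin 3 → ℤ) (j : Fin 3) : FreeGroup (Fin 3) × FreeGroup (Fin 3) :=
  (crossing (FreeGroup (Fin 3)) ^ m j) (arc j, (arc (j + 1))⁻¹)

/-- The bottom right end of column `j` is joined to the bottom left end of column `j + 1`. -/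
def relator (m : Fin 3 → ℤ) (j : Fin 3) : FreeGroup (Fin 3) :=
  (bottom m j).2 * (bottom m (j + 1)).1

/-- The group of the pretzel link with columns of `m 0`, `m 1`, `m 2` crossings. -/
abbrev PretzelGroup (m : Fin 3 → ℤ) : Type := PresentedGroup (Set.range (relator m))

/-- The quotient of the pretzel group by the `n`-th power of the meridian `a 0`. -/
abbrev OrbifoldGroup (m : Fin 3 → ℤ) (n : ℕ) : Type :=
  PresentedGroup (Set.range (relator m) ∪ {arc 0 ^ n})

/-- The columns `2p+1, -3, -(2k+1)`. -/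
def columns (p k : ℕ) : Fin 3 → ℤ := ![2 * (p : ℤ) + 1, -3, -(2 * (k : ℤ) + 1)]

section formulas
variable {G : Type*} [Group G]

theorem crossing_two (w : G × G) : (crossing G ^ (2 : ℤ)) w =
    ((w.1 * w.2)⁻¹ * w.1 * (w.1 * w.2), (w.1 * w.2)⁻¹ * w.2 * (w.1 * w.2)) := by
  rw [show (2 : ℤ) = ((2 : ℕ) : ℤ) from rfl, zpow_natCast, pow_two]
  show crossing G (crossing G w) = _
  ext
  · show w.2⁻¹ * w.1 * w.2 = _
    simp only; group
  · show (w.2⁻¹ * w.1 * w.2)⁻¹ * w.2 * (w.2⁻¹ * w.1 * w.2) = _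
    simp only; group

theorem crossing_even_nat (x y : G) (l : ℕ) : ((crossing G ^ (2 : ℤ)) ^ l) (x, y) =
    ((x * y) ^ (-(l : ℤ)) * x * (x * y) ^ (l : ℤ), (x * y) ^ (-(l : ℤ)) * y * (x * y) ^ (l : ℤ)) := by
  induction l with
  | zero => simp
  | succ l ih =>
    rw [pow_succ', Equiv.Perm.mul_apply, ih, crossing_two]
    set P := x * y with hP
    have h1 : (P ^ (-(l : ℤ)) * x * P ^ (l : ℤ)) * (P ^ (-(l : ℤ)) * y * P ^ (l : ℤ)) = P := by
      calc _ = P ^ (-(l : ℤ)) * (x * y) * P ^ (l : ℤ) := by group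
        _ = P := by rw [← hP]; group
    simp only [h1]
    push_cast
    ext
    · simp only; group
    · simp only; group

theorem crossing_even (x y : G) (l : ℤ) : (crossing G ^ (2 * l)) (x, y) =
    ((x * y) ^ (-l) * x * (x * y) ^ l, (x * y) ^ (-l) * y * (x * y) ^ l) := by
  rw [zpow_mul]
  rcases Int.eq_nat_or_neg l with ⟨l, rfl | rfl⟩
  · rw [zpow_natCast]; exact crossing_even_nat x y l
  · rw [zpow_neg, zpow_natCast, Equiv.Perm.inv_eq_iff_eq, crossing_even_nat]
    set P := x * y with hP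
    have h1 : (P ^ (-(-(l : ℤ))) * x * P ^ (-(l : ℤ))) * (P ^ (-(-(l : ℤ))) * y * P ^ (-(l : ℤ)))
        = P := by
      calc _ = P ^ ((l : ℤ)) * (x * y) * P ^ (-(l : ℤ)) := by group
        _ = P := by rw [← hP]; group
    simp only [h1]
    ext
    · simp only; group
    · simp only; group

theorem crossing_odd (x y : G) (l : ℤ) : (crossing G ^ (2 * l + 1)) (x, y) =
    ((x * y) ^ (-l) * y * (x * y) ^ l, (x * y) ^ (-l - 1) * x * (x * y) ^ (l + 1)) := by
  rw [add_comm, zpow_one_add, Equiv.Perm.mul_apply, crossing_even]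
  set P := x * y with hP
  have hy : y = x⁻¹ * P := by rw [hP]; group
  show ((P ^ (-l) * y * P ^ l), (P ^ (-l) * y * P ^ l)⁻¹ * (P ^ (-l) * x * P ^ l) *
    (P ^ (-l) * y * P ^ l)) = _
  ext
  · rfl
  · simp only
    calc (P ^ (-l) * y * P ^ l)⁻¹ * (P ^ (-l) * x * P ^ l) * (P ^ (-l) * y * P ^ l)
        = P ^ (-l) * (y⁻¹ * (x * y)) * P ^ l := by group
      _ = P ^ (-l) * (y⁻¹ * P) * P ^ l := by rw [← hP]
      _ = P ^ (-l - 1) * (P * y⁻¹) * P ^ (l + 1) := by group
      _ = P ^ (-l - 1) * x * P ^ (l + 1) := by rw [hP]; group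

end formulas

theorem bottom_odd (m : Fin 3 → ℤ) (j : Fin 3) (l : ℤ) (h : m j = 2 * l + 1) :
    bottom m j = ((arc j * (arc (j + 1))⁻¹) ^ (-l) * (arc (j + 1))⁻¹ *
        (arc j * (arc (j + 1))⁻¹) ^ l,
      (arc j * (arc (j + 1))⁻¹) ^ (-l - 1) * arc j * (arc j * (arc (j + 1))⁻¹) ^ (l + 1)) := by
  unfold bottom
  rw [h, crossing_odd]

theorem rel_formula {G : Type*} [Group G] (μ : FreeGroup (Fin 3) →* G) (m : Fin 3 → ℤ)
    (j : Fin 3) (l l' : ℤ) (h : m j = 2 * l + 1) (h' : m (j + 1) = 2 * l' + 1)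
    (hr : μ (relator m j) = 1) :
    (μ (arc j) * (μ (arc (j + 1)))⁻¹) ^ (-l - 1) * μ (arc j) *
      (μ (arc j) * (μ (arc (j + 1)))⁻¹) ^ (l + 1) *
      ((μ (arc (j + 1)) * (μ (arc (j + 1 + 1)))⁻¹) ^ (-l') * (μ (arc (j + 1 + 1)))⁻¹ *
        (μ (arc (j + 1)) * (μ (arc (j + 1 + 1)))⁻¹) ^ l') = 1 := by
  unfold relator at hr
  rw [bottom_odd m j l h, bottom_odd m (j + 1) l' h'] at hr
  simpa only [map_mul, map_zpow, map_inv] using hr

/-- The relators of the orbifold group have degree `0`. -/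
theorem degree_rel (m : Fin 3 → ℤ) (hm : ∀ j, Odd (m j)) (n : ℕ) :
    ∀ w ∈ Set.range (relator m) ∪ {arc 0 ^ n},
      FreeGroup.lift (fun _ : Fin 3 => (Multiplicative.ofAdd 1 : Multiplicative (ZMod n))) w
        = 1 := by
  rintro w (⟨j, rfl⟩ | rfl)
  · obtain ⟨l, hl⟩ := hm j
    obtain ⟨l', hl'⟩ := hm (j + 1)
    unfold relator
    rw [bottom_odd m j l hl, bottom_odd m (j + 1) l' hl']
    simp [arc]
  · simp only [arc, map_pow, FreeGroup.lift_apply_of]
    rw [← ofAdd_nsmul]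
    simp

/-- The homomorphism of the orbifold group to `Z/n` that sends all meridians `a j` to `1`
(for odd `m 0`, `m 1`, `m 2`, in which case the pretzel link is a knot). -/
def degree (m : Fin 3 → ℤ) (hm : ∀ j, Odd (m j)) (n : ℕ) :
    OrbifoldGroup m n →* Multiplicative (ZMod n) :=
  PresentedGroup.toGroup (degree_rel m hm n)

/-- The fundamental group of the `n`-fold cyclic branched cover of the pretzel knot with columns
of `m 0`, `m 1`, `m 2` crossings: the kernel of the homomorphism to `Z/n` from the quotient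
of the knot group by the `n`-th power of a meridian. -/
abbrev CoverGroup (m : Fin 3 → ℤ) (hm : ∀ j, Odd (m j)) (n : ℕ) : Type :=
  (degree m hm n).ker

theorem columns_odd (p k : ℕ) : ∀ j, Odd (columns p k j) := by
  intro j
  fin_cases j
  · exact ⟨p, rfl⟩
  · exact ⟨-2, rfl⟩
  · exact ⟨-((k : ℤ) + 1), by show -(2 * (k : ℤ) + 1) = _; ring⟩

/-- `G` has no nontrivial homomorphism to a left-orderable group; in particular it is not
left-orderable. -/
theorem not_lo {G : Type} [Group G]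
    (h : ∀ (H : Type) [Group H], LeftOrderable H → ∀ f : G →* H, ∀ g, f g = 1) :
    ¬ LeftOrderable G := by
  intro hG
  obtain ⟨a, b, hab⟩ := hG.1
  have key := h G hG (MonoidHom.id _)
  exact hab ((key a).trans (key b).symm)

theorem lo_order {H : Type*} [Group H] (hH : LeftOrderable H) :
    ∃ _ : LinearOrder H, ∀ a b c : H, a ≤ b ↔ c * a ≤ c * b := by
  classical
  obtain ⟨_, lt, hlt, hinv⟩ := hH
  refine ⟨linearOrderOfSTO lt, ?_⟩
  intro a b c
  show (a = b ∨ lt a b) ↔ (c * a = c * b ∨ lt (c * a) (c * b))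
  rw [mul_right_inj, ← hinv]

theorem relA_aux {G : Type*} [Group G] (s X V : G) (p : ℤ) (R : X ^ (-p - 1) * s *
    X ^ (p + 1) * (V ^ (-(-2) : ℤ) * ((X * V)⁻¹ * s)⁻¹ * V ^ (-2 : ℤ)) = 1) :
    s * (X ^ (p + 1) * (V * V)) * s⁻¹ = X ^ (p + 1) * V * X⁻¹ := by
  have h1 : X ^ (-p - 1) = (X ^ (p + 1))⁻¹ := by
    rw [← zpow_neg]; congr 1; ring
  have h3 : V ^ (-(-2) : ℤ) = V * V := by rw [neg_neg, zpow_two]
  have h4 : V ^ (-2 : ℤ) = (V * V)⁻¹ := by rw [zpow_neg, zpow_two]
  rw [h1, h3, h4] at R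
  set P := X ^ (p + 1) with hP
  calc s * (P * (V * V)) * s⁻¹ = P * (P⁻¹ * s * P *
        (V * V * ((X * V)⁻¹ * s)⁻¹ * (V * V)⁻¹)) * (V * V) * (X * V)⁻¹ := by
          simp only [mul_inv_rev, inv_inv, mul_assoc, mul_inv_cancel_left, inv_mul_cancel_left,
            mul_inv_cancel, mul_one]
    _ = _ := by
          rw [R]
          simp only [mul_one, mul_assoc, mul_inv_rev, mul_inv_cancel_left]

theorem relB_aux {G : Type*} [Group G] (s X V W : G) (l : ℤ) (R : V ^ (-(-2) - 1 : ℤ) *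
    (X⁻¹ * s) * V ^ (-2 + 1 : ℤ) * (W ^ (-l) * s⁻¹ * W ^ l) = 1) :
    s * (V⁻¹ * W ^ (-l)) * s⁻¹ = X * V⁻¹ * W ^ (-l) := by
  have h1 : V ^ (-(-2) - 1 : ℤ) = V := by
    rw [show (-(-2) - 1 : ℤ) = 1 from rfl, zpow_one]
  have h2 : V ^ (-2 + 1 : ℤ) = V⁻¹ := by
    rw [show (-2 + 1 : ℤ) = -1 from rfl, zpow_neg_one]
  have h3 : W ^ l = (W ^ (-l))⁻¹ := by rw [zpow_neg, inv_inv]
  rw [h1, h2, h3] at R
  set P := W ^ (-l) with hP
  calc s * (V⁻¹ * P) * s⁻¹ = X * V⁻¹ * (V * (X⁻¹ * s) * V⁻¹ * (P * s⁻¹ * P⁻¹)) * P := by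
          simp only [mul_assoc, mul_inv_cancel_left, inv_mul_cancel_left, inv_mul_cancel, mul_one]
    _ = _ := by rw [R, mul_one]

theorem cover_trivial (p : ℕ) (hp : 0 < p) (k : ℕ) {n : ℕ} (hn : 0 < n) {H : Type*} [Group H]
    (hH : LeftOrderable H) (f : CoverGroup (columns p k) (columns_odd p k) n →* H)
    (g : CoverGroup (columns p k) (columns_odd p k) n) : f g = 1 := by
  obtain ⟨_, hinv⟩ := lo_order hH
  obtain ⟨q, rfl⟩ := Nat.exists_eq_add_of_le' hp
  set m := columns (q + 1) k with hm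
  set a : Fin 3 → OrbifoldGroup m n := fun j => PresentedGroup.of j with ha
  have hs : a 0 ^ n = 1 := by
    have h1 : PresentedGroup.mk (Set.range (relator m) ∪ {arc 0 ^ n}) (arc 0 ^ n) = 1 :=
      PresentedGroup.one_of_mem (Or.inr rfl)
    rwa [map_pow] at h1
  set μ := PresentedGroup.mk (Set.range (relator m) ∪ {arc 0 ^ n}) with hμ
  have hm0 : m 0 = 2 * ((q + 1 : ℕ) : ℤ) + 1 := rfl
  have hm1 : m 1 = 2 * (-2) + 1 := rfl
  have hm2 : m (1 + 1) = 2 * (-((k : ℤ) + 1)) + 1 := by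
    show -(2 * (k : ℤ) + 1) = _; ring
  have R0 : (a 0 * (a 1)⁻¹) ^ (-((q + 1 : ℕ) : ℤ) - 1) * a 0 *
      (a 0 * (a 1)⁻¹) ^ (((q + 1 : ℕ) : ℤ) + 1) *
      ((a 1 * (a 2)⁻¹) ^ (-(-2) : ℤ) * (a 2)⁻¹ * (a 1 * (a 2)⁻¹) ^ (-2 : ℤ)) = 1 :=
    rel_formula μ m 0 ((q + 1 : ℕ) : ℤ) (-2) hm0 hm1
      (PresentedGroup.one_of_mem (Or.inl ⟨0, rfl⟩))
  have R1 : (a 1 * (a 2)⁻¹) ^ (-(-2) - 1 : ℤ) * a 1 * (a 1 * (a 2)⁻¹) ^ (-2 + 1 : ℤ) *
      ((a 2 * (a 0)⁻¹) ^ (-(-((k : ℤ) + 1))) * (a 0)⁻¹ *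
        (a 2 * (a 0)⁻¹) ^ (-((k : ℤ) + 1))) = 1 :=
    rel_formula μ m 1 (-2) (-((k : ℤ) + 1)) hm1 hm2
      (PresentedGroup.one_of_mem (Or.inl ⟨1, rfl⟩))
  set s := a 0 with hs0
  set X := s * (a 1)⁻¹ with hX
  set V := a 1 * (a 2)⁻¹ with hV
  have e1 : a 1 = X⁻¹ * s := by rw [hX]; group
  have e2 : a 2 = (X * V)⁻¹ * s := by rw [hV, hX]; group
  have e3 : a 2 * s⁻¹ = (X * V)⁻¹ := by rw [e2]; group
  rw [e3] at R1
  rw [e2] at R0
  rw [e1] at R1
  have hA := relA_aux s X V ((q + 1 : ℕ) : ℤ) R0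
  have hB := relB_aux s X V ((X * V)⁻¹) (-((k : ℤ) + 1)) R1
  obtain ⟨W, hW⟩ : ∃ W : OrbifoldGroup m n, W = (X * V)⁻¹ := ⟨_, rfl⟩
  rw [← hW] at hB
  have hVW : V = X⁻¹ * W⁻¹ := by rw [hW]; group
  have hXp : X ^ (((q + 1 : ℕ) : ℤ) + 1) = X * (X * X ^ q) := by
    push_cast
    rw [zpow_add_one, zpow_add_one, zpow_natCast, ← pow_succ, ← pow_succ', ← pow_succ, ← pow_succ']
  have hWp : W ^ (-(-((k : ℤ) + 1))) = W ^ k * W := by
    rw [neg_neg, zpow_add_one, zpow_natCast]
  have hcX : X ^ q * X = X * X ^ q := (pow_succ X q).symm.trans (pow_succ' X q)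
  have hcW : W ^ k * W = W * W ^ k := (pow_succ W k).symm.trans (pow_succ' W k)
  rw [hXp] at hA
  rw [hWp] at hB
  -- the product of the two relations
  have Z : s * (X * X ^ q * W ^ k) * s⁻¹ = X * (X * X ^ q * W ^ k) * W := by
    have h1 : X * X ^ q * W ^ k = (X * (X * X ^ q) * (V * V)) * (V⁻¹ * (W ^ k * W)) := by
      calc X * X ^ q * W ^ k = X * X ^ q * W⁻¹ * (W * W ^ k) := by group
        _ = X * X ^ q * (X * V) * (W ^ k * W) := by rw [hcW, hW]; group
        _ = X * (X ^ q * X) * V * (W ^ k * W) := by group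
        _ = _ := by rw [hcX]; group
    have h2 : s * (X * X ^ q * W ^ k) * s⁻¹ = (s * (X * (X * X ^ q) * (V * V)) * s⁻¹) *
        (s * (V⁻¹ * (W ^ k * W)) * s⁻¹) := by
      rw [h1]; group
    rw [h2, hA, hB]; group
  have U : s * (W * X * W * X⁻¹ * (X ^ q)⁻¹) * s⁻¹ = X * W * X⁻¹ * (X ^ q)⁻¹ := by
    have h1 : W * X * W * X⁻¹ * (X ^ q)⁻¹ = (X * (X * X ^ q) * (V * V))⁻¹ := by
      rw [hVW]; group
    have h2 : s * (W * X * W * X⁻¹ * (X ^ q)⁻¹) * s⁻¹
        = (s * (X * (X * X ^ q) * (V * V)) * s⁻¹)⁻¹ := by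
      rw [h1]; group
    rw [h2, hA, hVW]; group
  have hgen : ∀ K : Subgroup (OrbifoldGroup m n), s ∈ K → X ∈ K → W ∈ K → K = ⊤ := by
    intro K h1 h2 h3
    have key : ∀ j, a j ∈ K := by
      intro j
      fin_cases j
      · exact h1
      · show a 1 ∈ K
        rw [e1]; exact mul_mem (inv_mem h2) h1
      · show a 2 ∈ K
        rw [e2, ← hW]; exact mul_mem h3 h1
    rw [eq_top_iff, ← PresentedGroup.closure_range_of, Subgroup.closure_le]
    rintro _ ⟨j, rfl⟩
    exact key j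
  have da : ∀ j, degree m (columns_odd (q + 1) k) n (a j) = Multiplicative.ofAdd 1 :=
    fun j => PresentedGroup.toGroup.of _
  have dX : degree m (columns_odd (q + 1) k) n X = 1 := by
    rw [hX, map_mul, map_inv, hs0, da, da, mul_inv_cancel]
  have dV : degree m (columns_odd (q + 1) k) n V = 1 := by
    rw [hV, map_mul, map_inv, da, da, mul_inv_cancel]
  have dW : degree m (columns_odd (q + 1) k) n W = 1 := by
    rw [hW, map_inv, map_mul, dX, dV, one_mul, inv_one]
  exact Pool.Agent.K7.H31.LO.hom_trivial hn hs hgen _ (da 0) dX dW q k Z U hinv f g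

theorem result (p k n : ℕ) (hp : 0 < p) (hn : 0 < n) :
    ¬ LeftOrderable (CoverGroup (columns p k) (columns_odd p k) n) ∧
    ∀ (H : Type) [Group H], LeftOrderable H →
      ∀ f : CoverGroup (columns p k) (columns_odd p k) n →* H, ∀ g, f g = 1 := by
  have h : ∀ (H : Type) [Group H], LeftOrderable H →
      ∀ f : CoverGroup (columns p k) (columns_odd p k) n →* H, ∀ g, f g = 1 :=
    fun H _ hH f g => cover_trivial p hp k hn hH f g
  exact ⟨not_lo h, h⟩

end Pool.Agent.Results.MP_3d425c_gt.PretzelFamilyAllCovers
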