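import Pool.Agent.TH821.HexGroup

set_option autoImplicit false

/-!
# One stage of the chain of the pretzel knots P(2p+1, -3, -(2k+1))

`x, w` are order automorphisms of a complete linear order, `r` follows `x` (a power of `x`), and
`z = x r w^k`, `u = x w x⁻¹ r⁻¹`, `f = z w z⁻¹`, `F = f^k`; the next `z` is `z' = x z w`, the previous
`u` is `u' = w u`.  The relations that are used are listed in the structure `TStage`.
-/

namespace Pool.Agent.K7.H31.LO

open Pool.Agent.TH821.Hex

variable {Ω : Type*} [CompleteLinearOrder Ω]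

/-- The relations of one stage. -/
structure TStage (x r f F w u z z' u' : Ω ≃o Ω) : Prop where
  fx : Follows x r
  ff : Follows f F
  a : ∀ v, f (z v) = z (w v)
  b : ∀ v, r (u v) = f v
  c : ∀ v, F (z' v) = z (u (z v))
  d : ∀ v, z' v = x (z (w v))
  e : ∀ v, u' v = w (u v)

theorem TStage.dual {x r f F w u z z' u' : Ω ≃o Ω} (S : TStage x r f F w u z z' u') :
    TStage (Ω := Ωᵒᵈ) x.dual r.dual f.dual F.dual w.dual u.dual z.dual z'.dual u'.dual :=
  ⟨S.fx.dual, S.ff.dual, fun v => S.a v, fun v => S.b v, fun v => S.c v, fun v => S.d v,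
    fun v => S.e v⟩

/-- points between `α` and `g α > α` are moved up. -/
theorem up_seg (g : Ω ≃o Ω) {α v : Ω} (h : α < g α) (h1 : α ≤ v) (h2 : v ≤ g α) : v < g v := by
  rcases h1.eq_or_lt with rfl | h3
  · exact h
  · exact lt_of_le_of_lt h2 (g.lt_iff_lt.mpr h3)

theorem dn_seg (g : Ω ≃o Ω) {α v : Ω} (h : g α < α) (h1 : g α ≤ v) (h2 : v ≤ α) : g v < v := by
  rcases h2.eq_or_lt with rfl | h3
  · exact h
  · exact lt_of_lt_of_le (g.lt_iff_lt.mpr h3) h1

/-- points between `α` and `G α` are moved up by `g` if `g` moves `α` up. -/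
theorem seg_up {g G : Ω ≃o Ω} (hF : Follows g G) {α v : Ω} (h : α < g α) (h1 : α ≤ v)
    (h2 : v ≤ G α) : v < g v := by
  rcases h1.eq_or_lt with rfl | h3
  · exact h
  · by_contra hv
    rw [not_lt] at hv
    exact absurd (hF.down v hv) (not_le.mpr (lt_of_le_of_lt h2 (G.lt_iff_lt.mpr h3)))

theorem seg_dn {g G : Ω ≃o Ω} (hF : Follows g G) {α v : Ω} (h : g α < α) (h1 : G α ≤ v)
    (h2 : v ≤ α) : g v < v := by
  rcases h2.eq_or_lt with rfl | h3
  · exact h
  · by_contra hv
    rw [not_lt] at hv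
    exact absurd (hF.up v hv) (not_le.mpr (lt_of_lt_of_le (G.lt_iff_lt.mpr h3) h1))

theorem up_of {g G : Ω ≃o Ω} (hF : Follows g G) {α : Ω} (h : α < G α) : α < g α := by
  by_contra hv
  rw [not_lt] at hv
  exact absurd (hF.down α hv) (not_le.mpr h)

theorem dn_of {g G : Ω ≃o Ω} (hF : Follows g G) {α : Ω} (h : G α < α) : g α < α := by
  by_contra hv
  rw [not_lt] at hv
  exact absurd (hF.up α hv) (not_le.mpr h)

/-- `g` moves the points between `s` and `t` down, and `s` below `t`. -/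
def INeg (g : Ω ≃o Ω) (s t : Ω) : Prop :=
  g s < t ∧ ∀ v, (t ≤ v ∧ v ≤ s) ∨ (s ≤ v ∧ v ≤ t) → g v < v

/-- `g` moves the points between `s` and `t` up, and `s` above `t`. -/
def IPos (g : Ω ≃o Ω) (s t : Ω) : Prop :=
  t < g s ∧ ∀ v, (t ≤ v ∧ v ≤ s) ∨ (s ≤ v ∧ v ≤ t) → v < g v

theorem INeg.dual {g : Ω ≃o Ω} {s t : Ω} (h : INeg g s t) : IPos (Ω := Ωᵒᵈ) g.dual s t :=
  ⟨h.1, fun v hv => h.2 v (hv.symm.imp (fun h => ⟨h.2, h.1⟩) (fun h => ⟨h.2, h.1⟩))⟩

theorem IPos.dual {g : Ω ≃o Ω} {s t : Ω} (h : IPos g s t) : INeg (Ω := Ωᵒᵈ) g.dual s t :=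
  ⟨h.1, fun v hv => h.2 v (hv.symm.imp (fun h => ⟨h.2, h.1⟩) (fun h => ⟨h.2, h.1⟩))⟩

theorem IPos.of_dual {g : Ω ≃o Ω} {s t : Ω} (h : INeg (Ω := Ωᵒᵈ) g.dual s t) : IPos g s t :=
  ⟨h.1, fun v hv => h.2 v (hv.symm.imp (fun h => ⟨h.2, h.1⟩) (fun h => ⟨h.2, h.1⟩))⟩

theorem INeg.left {g : Ω ≃o Ω} {s t : Ω} (h : INeg g s t) : g s < s :=
  h.2 s ((le_total t s).imp (fun h => ⟨h, le_rfl⟩) (fun h => ⟨le_rfl, h⟩))

theorem INeg.right {g : Ω ≃o Ω} {s t : Ω} (h : INeg g s t) : g t < t :=
  h.2 t ((le_total t s).imp (fun h => ⟨le_rfl, h⟩) (fun h => ⟨h, le_rfl⟩))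

section stage
variable {x r f F w u z z' u' : Ω ≃o Ω}

/-- `x` down at `f v`: then `f v ≤ u v`. -/
theorem TStage.le_u (S : TStage x r f F w u z z' u') {v : Ω} (h : x (f v) ≤ f v) : f v ≤ u v := by
  by_contra h1
  rw [not_le] at h1
  have h2 : u v < r (u v) := by rw [S.b]; exact h1
  exact absurd h (not_le.mpr (seg_up S.fx (up_of S.fx h2) h1.le (S.b v).ge))

theorem TStage.u_le (S : TStage x r f F w u z z' u') {v : Ω} (h : f v ≤ x (f v)) : u v ≤ f v := by
  by_contra h1
  rw [not_le] at h1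
  have h2 : r (u v) < u v := by rw [S.b]; exact h1
  exact absurd h (not_le.mpr (seg_dn S.fx (dn_of S.fx h2) (S.b v).le h1.le))

/-- The main step downwards. -/
theorem TStage.neg (S : TStage x r f F w u z z' u') {t : Ω} (h : INeg u (z' t) t) :
    w t < t ∧ INeg u' (z t) t := by
  have hl := h.left
  have hr := h.right
  have hxz : x (z (w t)) = z' t := (S.d t).symm
  have hfz : f (z t) = z (w t) := S.a t
  -- `y = u z t < t`
  have hy : u (z t) < t := by
    by_contra hy
    rw [not_lt] at hy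
    have hz' : z' t < z t := by
      rw [← u.lt_iff_lt]; exact lt_of_lt_of_le h.1 hy
    have c1 : z t ≤ z (u (z t)) := z.le_iff_le.mpr hy
    have c2 : z' t < F (z' t) := by rw [S.c]; exact hz'.trans_le c1
    have c0 := up_of S.ff c2
    have c3 : z t < f (z t) := seg_up S.ff c0 hz'.le (by rw [S.c]; exact c1)
    have c6 : z' t < z (w t) := by rw [← hfz]; exact hz'.trans c3
    have c7 : x (f (z' t)) < f (z' t) := by
      refine dn_seg x (α := z (w t)) (by rw [hxz]; exact c6) (by rw [hxz]; exact c0.le) ?_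
      rw [← hfz]; exact f.le_iff_le.mpr hz'.le
    exact absurd (c0.trans_le (S.le_u c7.le)) (not_lt.mpr hl.le)
  have hzy : z (u (z t)) < z t := z.lt_iff_lt.mpr hy
  -- `f` is down at `z' t`
  have hf : f (z' t) < z' t := by
    by_contra hf
    rw [not_lt] at hf
    have d0 : u (z' t) < r (u (z' t)) := by rw [S.b]; exact hl.trans_le hf
    have d1 : z' t < x (z' t) := seg_up S.fx (up_of S.fx d0) hl.le (by rw [S.b]; exact hf)
    have d2 : z (w t) < z' t := by
      rw [← x.lt_iff_lt, hxz]; exact d1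
    have d3 : z' t ≤ F (z' t) := S.ff.up _ hf
    have d4 : z' t < z t := by
      rw [S.c] at d3; exact d3.trans_lt hzy
    have d5 : f (z' t) < z' t :=
      dn_seg f (α := z t) (by rw [hfz]; exact d2.trans d4) (by rw [hfz]; exact d2.le) d4.le
    exact absurd hf (not_le.mpr d5)
  have f1 : ∀ v, z (u (z t)) ≤ v → v ≤ z' t → f v < v := by
    intro v v1 v2
    exact seg_dn S.ff hf (by rw [S.c]; exact v1) v2
  -- `f` is down from `z y` to `z t`
  have f2 : ∀ v, z (u (z t)) ≤ v → v ≤ z t → f v < v := by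
    intro v v1 v2
    rcases le_or_gt v (z' t) with v3 | v3
    · exact f1 v v1 v3
    · by_contra hv
      rw [not_lt] at hv
      obtain ⟨e, e1, e2, e3⟩ := fixDU f v3.le hf hv
      set ε := z.symm e with hε
      have hzε : z ε = e := by rw [hε]; simp
      have ht : ε ≤ t := by
        rw [← z.le_iff_le, hzε]; exact e2.trans v2
      have hz'ε : z' ε = x e := by
        rw [S.d, ← S.a, hzε, e3]
      have hue : u e < e := by
        rcases le_or_gt e t with h1 | h1
        · exact h.2 e (Or.inr ⟨e1.le, h1⟩)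
        · have h2 : e ≤ z t := e2.trans v2
          exact dn_seg u (α := z t) (hy.trans (h1.trans_le h2)) (hy.trans h1).le h2
      have hre : u e < r (u e) := by rw [S.b, e3]; exact hue
      have hxe : e < x e := seg_up S.fx (up_of S.fx hre) hue.le (by rw [S.b, e3])
      have h1 : z' ε ≤ z' t := z'.le_iff_le.mpr ht
      rw [hz'ε] at h1
      exact absurd h1 (not_le.mpr (e1.trans hxe))
  have hw : ∀ v, u (z t) ≤ v → v ≤ t → w v < v := by
    intro v v1 v2
    have := f2 (z v) (z.le_iff_le.mpr v1) (z.le_iff_le.mpr v2)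
    rw [S.a] at this
    exact z.lt_iff_lt.mp this
  have hwt : w t < t := hw t hy.le le_rfl
  have hwy : w (u (z t)) < u (z t) := hw _ le_rfl hy.le
  refine ⟨hwt, ?_, ?_⟩
  · rw [S.e]; exact hwy.trans hy
  · intro v hv
    rw [S.e]
    rcases hv with ⟨v1, v2⟩ | ⟨v1, v2⟩
    · have h1 : w (u v) ≤ w (u (z t)) := w.le_iff_le.mpr (u.le_iff_le.mpr v2)
      exact h1.trans_lt ((hwy.trans hy).trans_le v1)
    · have hyv : u (z t) ≤ u v := u.le_iff_le.mpr v1
      have huv : u v < v := by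
        rcases le_or_gt (z' t) v with v3 | v3
        · exact h.2 v (Or.inr ⟨v3, v2⟩)
        · have h1 : f v < v := f1 v (hzy.le.trans v1) v3.le
          have h2 : z (w t) ≤ f v := by rw [← hfz]; exact f.le_iff_le.mpr v1
          have h3 : z (w t) < z t := z.lt_iff_lt.mpr hwt
          have h4 : f v < x (f v) := by
            refine up_seg x (α := z (w t)) ?_ h2 ?_
            · rw [hxz]; exact (h3.trans_le v1).trans v3
            · rw [hxz]; exact (h1.trans v3).le
          exact (S.u_le h4.le).trans_lt h1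
      exact (hw (u v) hyv (huv.le.trans v2)).trans huv

theorem TStage.pos (S : TStage x r f F w u z z' u') {t : Ω} (h : IPos u (z' t) t) :
    t < w t ∧ IPos u' (z t) t := by
  obtain ⟨h1, h2⟩ := TStage.neg (Ω := Ωᵒᵈ) S.dual (t := t) h.dual
  exact ⟨h1, IPos.of_dual h2⟩

/-- `z t ≤ t < u z t` leads to `IPos`. -/
theorem TStage.lemA (S : TStage x r f F w u z z' u') {t : Ω} (h1 : z t ≤ t) (h2 : t < u (z t)) :
    IPos u' (z t) t := by
  have hxz : x (z (w t)) = z' t := (S.d t).symm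
  have hfz : f (z t) = z (w t) := S.a t
  have hw : t < w t := by
    by_contra hw
    rw [not_lt] at hw
    have k1 : z (w t) ≤ z t := z.le_iff_le.mpr hw
    have k2 : r (u (z t)) < u (z t) := by
      rw [S.b, hfz]; exact (k1.trans h1).trans_lt h2
    have k3 : x (z (w t)) < z (w t) := by
      refine seg_dn S.fx (dn_of S.fx k2) ?_ ((k1.trans h1).trans h2.le)
      rw [S.b, hfz]
    rw [hxz] at k3
    have k4 : z t < z (u (z t)) := z.lt_iff_lt.mpr h2
    have k5 : z' t < F (z' t) := by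
      rw [S.c]; exact (k3.trans_le k1).trans k4
    have k6 : z t < f (z t) :=
      seg_up S.ff (up_of S.ff k5) (k3.le.trans k1) (by rw [S.c]; exact k4.le)
    rw [hfz] at k6
    exact absurd k1 (not_le.mpr k6)
  have h3 : t < u' (z t) := by
    rw [S.e]; exact hw.trans (w.lt_iff_lt.mpr h2)
  refine ⟨h3, ?_⟩
  rintro v (⟨v1, v2⟩ | ⟨v1, v2⟩)
  · exact up_seg u' (α := z t) (h1.trans_lt h3) (h1.trans v1) ((v2.trans h1).trans h3.le)
  · exact up_seg u' (α := z t) (h1.trans_lt h3) v1 (v2.trans h3.le)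

theorem TStage.lemA' (S : TStage x r f F w u z z' u') {t : Ω} (h1 : t ≤ z t) (h2 : u (z t) < t) :
    INeg u' (z t) t := by
  have := TStage.lemA (Ω := Ωᵒᵈ) S.dual (t := t) h1 h2
  exact ⟨this.1, fun v hv => this.2 v (hv.symm.imp (fun h => ⟨h.2, h.1⟩) (fun h => ⟨h.2, h.1⟩))⟩

/-- `z t ≤ t < z' t` and `u z t ≤ t` lead to `INeg`. -/
theorem TStage.lemB (S : TStage x r f F w u z z' u') {t : Ω} (h1 : z t ≤ t) (h2 : t < z' t)
    (hy : u (z t) ≤ t) : INeg u' (z t) t := by
  have hxz : x (z (w t)) = z' t := (S.d t).symm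
  have hfz : f (z t) = z (w t) := S.a t
  have k1 : z (u (z t)) ≤ z t := z.le_iff_le.mpr hy
  have k2 : F (z' t) < z' t := by rw [S.c]; exact (k1.trans h1).trans_lt h2
  have f1 : ∀ v, z (u (z t)) ≤ v → v ≤ z' t → f v < v := by
    intro v v1 v2
    exact seg_dn S.ff (dn_of S.ff k2) (by rw [S.c]; exact v1) v2
  have hzz' : z t < z' t := h1.trans_lt h2
  have k3 : f (z t) < z t := f1 _ k1 hzz'.le
  rw [hfz] at k3
  have u1 : ∀ v, z t ≤ v → v ≤ z' t → u v < v := by
    intro v v1 v2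
    have h3 := f1 v (k1.trans v1) v2
    have h4 : z (w t) ≤ f v := by rw [← hfz]; exact f.le_iff_le.mpr v1
    have h5 : f v < x (f v) := by
      refine up_seg x (α := z (w t)) ?_ h4 ?_
      · rw [hxz]; exact k3.trans hzz'
      · rw [hxz]; exact h3.le.trans v2
    exact (S.u_le h5.le).trans_lt h3
  have hw : ∀ v, u (z t) ≤ v → v ≤ t → w v < v := by
    intro v v1 v2
    have := f1 (z v) (z.le_iff_le.mpr v1) ((z.le_iff_le.mpr v2).trans hzz'.le)
    rw [S.a] at this
    exact z.lt_iff_lt.mp this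
  have hyz : u (z t) < z t := u1 _ le_rfl hzz'.le
  refine ⟨?_, ?_⟩
  · rw [S.e]; exact (hw _ le_rfl hy).trans_le hy
  · intro v hv
    have hv' : z t ≤ v ∧ v ≤ t := by
      rcases hv with ⟨v1, v2⟩ | hv
      · exact ⟨h1.trans v1, v2.trans h1⟩
      · exact hv
    have huv := u1 v hv'.1 (hv'.2.trans h2.le)
    rw [S.e]
    exact (hw (u v) (u.le_iff_le.mpr hv'.1) (huv.le.trans hv'.2)).trans huv

theorem TStage.lemB' (S : TStage x r f F w u z z' u') {t : Ω} (h1 : t ≤ z t) (h2 : z' t < t)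
    (hy : t ≤ u (z t)) : IPos u' (z t) t := by
  have := TStage.lemB (Ω := Ωᵒᵈ) S.dual (t := t) h1 h2 hy
  exact ⟨this.1, fun v hv => this.2 v (hv.symm.imp (fun h => ⟨h.2, h.1⟩) (fun h => ⟨h.2, h.1⟩))⟩

/-- `z t > t` and `u z t = t` lead to `INeg`. -/
theorem TStage.lemC (S : TStage x r f F w u z z' u') {t : Ω} (h1 : t < z t) (h2 : t < z' t)
    (hy : u (z t) = t) : INeg u' (z t) t := by
  have hxz : x (z (w t)) = z' t := (S.d t).symm
  have hfz : f (z t) = z (w t) := S.a t
  have hc : F (z' t) = z t := by rw [S.c, hy]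
  have hu : ∀ v, t ≤ v → v ≤ z t → u v < v := by
    intro v v1 v2
    exact dn_seg u (α := z t) (by rw [hy]; exact h1) (by rw [hy]; exact v1) v2
  have key : w t < t → INeg u' (z t) t := by
    intro hw
    refine ⟨by rw [S.e, hy]; exact hw, ?_⟩
    intro v hv
    have hv' : t ≤ v ∧ v ≤ z t := by
      rcases hv with hv | ⟨v1, v2⟩
      · exact hv
      · exact ⟨h1.le.trans v1, v2.trans h1.le⟩
    rw [S.e]
    have h3 : u v ≤ t := by
      rw [← hy]; exact u.le_iff_le.mpr hv'.2
    exact ((w.le_iff_le.mpr h3).trans_lt hw).trans_le hv'.1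
  rcases lt_trichotomy (z' t) (z t) with h3 | h3 | h3
  · -- impossible
    exfalso
    have c2 : z' t < F (z' t) := by rw [hc]; exact h3
    have c0 := up_of S.ff c2
    have c3 : z t < f (z t) := seg_up S.ff c0 h3.le hc.ge
    have c6 : z' t < z (w t) := by rw [← hfz]; exact h3.trans c3
    have c7 : x (f (z' t)) < f (z' t) := by
      refine dn_seg x (α := z (w t)) (by rw [hxz]; exact c6) (by rw [hxz]; exact c0.le) ?_
      rw [← hfz]; exact f.le_iff_le.mpr h3.le
    exact absurd (c0.trans_le (S.le_u c7.le)) (not_lt.mpr (hu _ h2.le h3.le).le)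
  · rcases lt_trichotomy (w t) t with h4 | h4 | h4
    · exact key h4
    · exfalso
      rw [h4] at hxz hfz
      have h5 : z t ≤ x (z t) := by rw [hxz, h3]
      have h6 : x (z t) ≤ z t := by rw [hxz, h3]
      have h7 := S.le_u (v := z t) (by rw [hfz]; exact h6)
      rw [hfz, hy] at h7
      exact absurd h7 (not_le.mpr h1)
    · exfalso
      have h5 : z t < z (w t) := z.lt_iff_lt.mpr h4
      have h6 : x (z (w t)) ≤ z (w t) := by rw [hxz, h3]; exact h5.le
      have h7 := S.le_u (v := z t) (by rw [hfz]; exact h6)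
      rw [hfz, hy] at h7
      exact absurd (h1.trans h5) (not_lt.mpr h7)
  · apply key
    have c2 : F (z' t) < z' t := by rw [hc]; exact h3
    have c3 : f (z t) < z t := seg_dn S.ff (dn_of S.ff c2) hc.le h3.le
    rw [hfz] at c3
    exact z.lt_iff_lt.mp c3

/-- The step for points below which nothing happens: `m > t` is at most `z t` and `z' t`. -/
theorem TStage.lemD (S : TStage x r f F w u z z' u') {t m : Ω} (hm : t < m) (h1 : m ≤ z t)
    (h2 : m ≤ z' t) (hy : t < u (z t)) (hu : z' t ≤ z t ∨ ∀ v, m ≤ v → v ≤ z' t → v < u v)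
    (hu' : z t < z' t ∨ m = z' t ∨ ∀ v, m ≤ v → v ≤ z' t → v < u v) :
    (∀ v, m ≤ v → v ≤ z t → v < u v) ∧ (∀ v, t ≤ v → v ≤ u (z t) → v < w v) ∧
      ∀ v, m ≤ v → v ≤ z t → v < u' v := by
  have hxz : x (z (w t)) = z' t := (S.d t).symm
  have hfz : f (z t) = z (w t) := S.a t
  have k1 : z t < z (u (z t)) := z.lt_iff_lt.mpr hy
  suffices key : (∀ v, m ≤ v → v ≤ z t → v < u v) ∧ ∀ v, z t ≤ v → v ≤ z (u (z t)) → v < f v by
    obtain ⟨p1, p2⟩ := key
    have hw : ∀ v, t ≤ v → v ≤ u (z t) → v < w v := by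
      intro v v1 v2
      have := p2 (z v) (z.le_iff_le.mpr v1) (z.le_iff_le.mpr v2)
      rw [S.a] at this
      exact z.lt_iff_lt.mp this
    refine ⟨p1, hw, ?_⟩
    intro v v1 v2
    rw [S.e]
    have h3 := p1 v v1 v2
    have h4 : v < w v := hw v (hm.le.trans v1) (v2.trans (p1 _ h1 le_rfl).le)
    exact h4.trans (w.lt_iff_lt.mpr h3)
  rcases le_or_gt (z' t) (z t) with h3 | h3
  · have c2 : z' t < F (z' t) := by rw [S.c]; exact h3.trans_lt k1
    have c0 := up_of S.ff c2
    have f1 : ∀ v, z' t ≤ v → v ≤ z (u (z t)) → v < f v := by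
      intro v v1 v2
      exact seg_up S.ff c0 v1 (by rw [S.c]; exact v2)
    have c3 : z t < f (z t) := f1 _ h3 k1.le
    have c6 : z' t < z (w t) := by rw [← hfz]; exact h3.trans_lt c3
    have u1 : ∀ v, z' t ≤ v → v ≤ z t → v < u v := by
      intro v v1 v2
      have h4 := f1 v v1 (v2.trans k1.le)
      have h5 : x (f v) < f v := by
        refine dn_seg x (α := z (w t)) (by rw [hxz]; exact c6) (by rw [hxz]; exact v1.trans h4.le) ?_
        rw [← hfz]; exact f.le_iff_le.mpr v2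
      exact h4.trans_le (S.le_u h5.le)
    refine ⟨?_, fun v v1 v2 => f1 v (h3.trans v1) v2⟩
    intro v v1 v2
    rcases le_or_gt (z' t) v with v3 | v3
    · exact u1 v v3 v2
    · rcases hu' with h4 | h4 | h4
      · exact absurd h3 (not_le.mpr h4)
      · rw [← h4] at v3; exact absurd v1 (not_le.mpr v3)
      · exact h4 v v1 v3.le
  · have u1 : ∀ v, m ≤ v → v ≤ z' t → v < u v := by
      rcases hu with h4 | h4
      · exact absurd h4 (not_le.mpr h3)
      · exact h4
    have hl : z' t < u (z' t) := u1 _ h2 le_rfl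
    have hf : z' t < f (z' t) := by
      by_contra hf
      rw [not_lt] at hf
      have d0 : r (u (z' t)) < u (z' t) := by rw [S.b]; exact hf.trans_lt hl
      have d1 : x (z' t) < z' t := seg_dn S.fx (dn_of S.fx d0) (by rw [S.b]; exact hf) hl.le
      have d2 : z' t < z (w t) := by
        rw [← x.lt_iff_lt, hxz]; exact d1
      have d5 : z' t < f (z' t) :=
        up_seg f (α := z t) (by rw [hfz]; exact h3.trans d2) h3.le (by rw [hfz]; exact d2.le)
      exact absurd hf (not_le.mpr d5)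
    refine ⟨fun v v1 v2 => u1 v v1 (v2.trans h3.le), ?_⟩
    intro v v1 v2
    rcases le_or_gt (z' t) v with v3 | v3
    · exact seg_up S.ff hf v3 (by rw [S.c]; exact v2)
    · by_contra hv
      rw [not_lt] at hv
      obtain ⟨e, e1, e2, e3⟩ := fixNU f v3.le hv hf
      set ε := z.symm e with hε
      have hzε : z ε = e := by rw [hε]; simp
      have ht : t ≤ ε := by
        rw [← z.le_iff_le, hzε]; exact v1.trans e1
      have hz'ε : z' ε = x e := by
        rw [S.d, ← S.a, hzε, e3]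
      have hue : e < u e := u1 e ((h1.trans v1).trans e1) e2.le
      have hre : r (u e) < u e := by rw [S.b, e3]; exact hue
      have hxe : x e < e := seg_dn S.fx (dn_of S.fx hre) (by rw [S.b, e3]) hue.le
      have h4 : z' t ≤ z' ε := z'.le_iff_le.mpr ht
      rw [hz'ε] at h4
      exact absurd h4 (not_le.mpr (hxe.trans e2))

end stage

end Pool.Agent.K7.H31.LO
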